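import Pool.Agent.R955.FD.Defs

/-!
Project FD, part DWN: lower estimate of the norm of the Riemann sums (helper209).
-/

set_option autoImplicit false
set_option linter.unusedSectionVars false

namespace Pool.Agent.R209.FD

open MeasureTheory Set Filter Topology
open scoped ENNReal FourierTransform
open Pool.Agent.R955.FD

universe u

section
variable {X : Type u} [NormedAddCommGroup X] [NormedSpace ℂ X]

lemma ch_cont (ξ : ℝ) : Continuous (ch ξ) := by
  unfold ch
  fun_prop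

lemma ch_per (n : ℤ) (t : ℝ) : ch (n : ℝ) (t + 1) = ch (n : ℝ) t := by
  unfold ch
  have h : (((2 * Real.pi * (n : ℝ) * (t + 1) : ℝ) : ℂ)) * Complex.I =
      ((2 * Real.pi * (n : ℝ) * t : ℝ) : ℂ) * Complex.I + (n : ℂ) * (2 * Real.pi * Complex.I) := by
    push_cast
    ring
  rw [h, Complex.exp_add, Complex.exp_int_mul_two_pi_mul_I, mul_one]

lemma TN_cont (g : ℝ → X) (A : ℝ) (N : ℕ) (I : Set ℝ) : Continuous (TN g A N I) := by
  unfold TN
  refine continuous_finsetSum _ fun n _ => ?_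
  split_ifs
  · exact ((ch_cont _).smul continuous_const).const_smul _
  · exact continuous_const

lemma TN_per (g : ℝ → X) (A : ℝ) (N : ℕ) (I : Set ℝ) (t : ℝ) :
    TN g A N I (t + 1) = TN g A N I t := by
  unfold TN
  refine Finset.sum_congr rfl fun n _ => ?_
  rw [ch_per]

/-- The norm of a function of period one over an interval of length one. -/
lemma nT_shift {f : ℝ → X} (hf : Continuous f) (hp : ∀ t, f (t + 1) = f t) (p : ℝ≥0∞) (a : ℝ) :
    eLpNorm f p (volume.restrict (Ioc a (a + 1))) = nT p f := by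
  have hper : Function.Periodic f 1 := hp
  let F : AddCircle (1 : ℝ) → X := hper.lift
  have hF : Continuous F := continuous_coinduced_dom.2 hf
  have hFf : f = F ∘ ((↑) : ℝ → AddCircle (1 : ℝ)) := rfl
  have key : ∀ b : ℝ, eLpNorm f p (volume.restrict (Ioc b (b + 1))) = eLpNorm F p volume := by
    intro b
    rw [hFf]
    exact eLpNorm_comp_measurePreserving hF.aestronglyMeasurable
      (AddCircle.measurePreserving_mk 1 b)
  unfold nT
  rw [key a]
  have h0 := key 0
  rw [zero_add] at h0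
  exact h0.symm

/-- The norm of the dilated function. -/
lemma nT_dil {f : ℝ → X} (hf : Continuous f) (hp : ∀ t, f (t + 1) = f t) (p : ℝ≥0∞) (N R : ℕ)
    (hN : 1 ≤ N) (hR : 2 * R ≤ N) :
    eLpNorm (fun s => f ((N : ℝ)⁻¹ * s)) p (volume.restrict (Icc (-(R : ℝ)) R)) ≤
      ENNReal.ofReal ((N : ℝ) ^ (1 / p.toReal)) * nT p f := by
  have hN0 : (0 : ℝ) < N := by exact_mod_cast hN
  have hRN : 2 * (R : ℝ) ≤ N := by exact_mod_cast hR
  have hm : Measurable fun s : ℝ => (N : ℝ)⁻¹ * s := measurable_const_mul _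
  have hsub : Icc (-(R : ℝ)) R ⊆ (fun s : ℝ => (N : ℝ)⁻¹ * s) ⁻¹' Icc (-(1 / 2)) (1 / 2) := by
    intro s hs
    rw [mem_preimage, mem_Icc, inv_mul_eq_div, le_div_iff₀ hN0, div_le_iff₀ hN0]
    constructor
    · linarith [hs.1]
    · linarith [hs.2]
  refine (eLpNorm_mono_measure _ (Measure.restrict_mono hsub le_rfl)).trans ?_
  have h1 : eLpNorm (fun s => f ((N : ℝ)⁻¹ * s)) p
      (volume.restrict ((fun s : ℝ => (N : ℝ)⁻¹ * s) ⁻¹' Icc (-(1 / 2)) (1 / 2))) =
      eLpNorm f p (Measure.map (fun s : ℝ => (N : ℝ)⁻¹ * s)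
        (volume.restrict ((fun s : ℝ => (N : ℝ)⁻¹ * s) ⁻¹' Icc (-(1 / 2)) (1 / 2)))) :=
    (eLpNorm_map_measure hf.aestronglyMeasurable hm.aemeasurable).symm
  rw [h1, ← Measure.restrict_map hm measurableSet_Icc, Real.map_volume_mul_left
    (inv_ne_zero hN0.ne'), inv_inv, abs_of_pos hN0, Measure.restrict_smul,
    Measure.restrict_congr_set (Ioc_ae_eq_Icc (a := -(1 / 2)) (b := 1 / 2)).symm, eLpNorm_smul_measure_of_ne_zero
    (ENNReal.ofReal_pos.2 hN0).ne', smul_eq_mul]
  have h2 : Ioc (-(1 / 2) : ℝ) (1 / 2) = Ioc (-(1 / 2) : ℝ) (-(1 / 2) + 1) := by norm_num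
  rw [h2, nT_shift hf hp, ENNReal.toReal_div, ENNReal.toReal_one,
    ENNReal.ofReal_rpow_of_nonneg hN0.le (by positivity)]

end

theorem t_DWN (h1 : S_RIE.{u}) : S_DWN.{u} := by
  intro X _ _ _ g A L p R hg hp
  obtain ⟨C, hC, hrie⟩ := h1 X g A L hg
  refine ⟨fun N => (2 * (R : ℝ)) ^ p.toReal⁻¹ * (C / N), ?_, ?_⟩
  · have h2 := (tendsto_const_div_atTop_nhds_zero_nat C).const_mul ((2 * (R : ℝ)) ^ p.toReal⁻¹)
    rwa [mul_zero] at h2
  · intro N hN hRN I hI
    have hN0 : (0 : ℝ) < N := by exact_mod_cast hN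
    have hRN' : 2 * (R : ℝ) ≤ N := by exact_mod_cast hRN
    have hpt : ∀ s ∈ Icc (-(R : ℝ)) R,
        ‖Ext g I s‖ ≤ ‖TN g A N I ((N : ℝ)⁻¹ * s)‖ + C / N := by
      intro s hs
      have h2 : |(N : ℝ)⁻¹ * s| ≤ 1 / 2 := by
        rw [abs_le, inv_mul_eq_div, le_div_iff₀ hN0, div_le_iff₀ hN0]
        constructor
        · linarith [hs.1]
        · linarith [hs.2]
      have h3 := hrie N hN I hI _ h2
      rw [mul_inv_cancel_left₀ hN0.ne'] at h3
      have h4 : ‖((Real.sinc (Real.pi * ((N : ℝ)⁻¹ * s)) : ℝ) : ℂ) •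
          TN g A N I ((N : ℝ)⁻¹ * s)‖ ≤ ‖TN g A N I ((N : ℝ)⁻¹ * s)‖ := by
        rw [norm_smul, Complex.norm_real]
        exact mul_le_of_le_one_left (norm_nonneg _) (Real.abs_sinc_le_one _)
      have h5 := norm_le_norm_add_norm_sub' (Ext g I s)
        (((Real.sinc (Real.pi * ((N : ℝ)⁻¹ * s)) : ℝ) : ℂ) • TN g A N I ((N : ℝ)⁻¹ * s))
      rw [norm_sub_rev] at h5
      linarith
    have hc1 : Continuous fun s : ℝ => ‖TN g A N I ((N : ℝ)⁻¹ * s)‖ :=
      ((TN_cont g A N I).comp (continuous_const.mul continuous_id)).norm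
    calc eLpNorm (Ext g I) p (volume.restrict (Icc (-(R : ℝ)) R))
        ≤ eLpNorm ((fun s : ℝ => ‖TN g A N I ((N : ℝ)⁻¹ * s)‖) + fun _ => C / N) p
          (volume.restrict (Icc (-(R : ℝ)) R)) :=
          eLpNorm_mono_ae_real (ae_restrict_of_forall_mem measurableSet_Icc hpt)
      _ ≤ eLpNorm (fun s : ℝ => ‖TN g A N I ((N : ℝ)⁻¹ * s)‖) p
          (volume.restrict (Icc (-(R : ℝ)) R)) + eLpNorm (fun _ : ℝ => C / N) p
          (volume.restrict (Icc (-(R : ℝ)) R)) :=
          eLpNorm_add_le hc1.aestronglyMeasurable aestronglyMeasurable_const hp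
      _ ≤ _ := by
          refine add_le_add ?_ ?_
          · rw [eLpNorm_norm (fun s : ℝ => TN g A N I ((N : ℝ)⁻¹ * s))]
            exact nT_dil (TN_cont g A N I) (TN_per g A N I) p N R hN hRN
          · refine (eLpNorm_le_of_ae_bound (C := C / N) (Eventually.of_forall fun x => ?_)).trans ?_
            · rw [Real.norm_of_nonneg (by positivity)]
            · rw [Measure.restrict_apply_univ, Real.volume_Icc, sub_neg_eq_add, ← two_mul,
                ENNReal.ofReal_rpow_of_nonneg (by positivity) (by positivity),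
                ← ENNReal.ofReal_mul (by positivity)]

end Pool.Agent.R209.FD
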